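import Mathlib
import Pool.Agent.H98R2.Ev.T3
import Pool.Agent.TH410.KV.CubNum
import Pool.Agent.Run7.h972.Small.Cnt

set_option autoImplicit false
set_option linter.unusedSectionVars false

/-!
# Monotone properties given by small subgraphs, if `n` has a suitable prime power divisor

MP_257582_lc: helper file for `AlmostAllOrders`. The vertex set is cut into fields of orders `p ^ c`
and `p ^ (c + 1)`, where `p ^ c` is a divisor of `n`.
-/

namespace Run7.h972.Alm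

open Finset Pool.Agent.H98R2.Ev Pool.Agent.H98R2.Nb Pool.Agent.TH410.KV Run7.h972.Small

/-- the contradiction for one number of vertices -/
theorem no_ne {p : ℕ} [hp : Fact p.Prime] {b : ℕ} {𝓕 : Pool.Agent.TH410.KV.Fam}
    (hb : ∀ H : 𝓕, H.1.1 ≤ b) (m : ℕ)
    (h0 : ∀ H : 𝓕, ¬ H.1.2.Colorable (2 ^ m)) (H₁ : 𝓕) (h1 : H₁.1.2.Colorable (2 ^ (m + 1)))
    (e : ℕ) (he : m + 1 ≤ 2 ^ e) (c : ℕ) (hc : 1 ≤ c) (hbc : b ≤ p ^ c)
    (M j₀ M₂ : ℕ) (hM₂ : M₂ ≤ M) (hMk : M = 2 ^ (m + 1) + j₀ * (2 ^ (2 ^ e) - 1))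
    (n : ℕ) (hn : n = p ^ c * (M + (p - 1) * M₂))
    (hne : NE (univ : Finset (EV (Fin n))) (fun S => ¬ Has 𝓕 (toG S))) : False := by
  classical
  have hp2 : Fact (Nat.Prime 2) := ⟨Nat.prime_two⟩
  have hp1 : 1 < p := hp.out.one_lt
  let ℓ : Fin 0 → ℕ := fun j => j.elim0
  have hℓ : ∀ j, Fact (ℓ j).Prime := fun j => j.elim0
  let F : Fin M → Type := fun i => GaloisField p (c + (if (i : ℕ) < M₂ then 1 else 0))
  have hfin : ∀ i, Fintype (F i) := fun i => Fintype.ofFinite _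
  have hFcard : ∀ i, Nat.card (F i) = p ^ (c + (if (i : ℕ) < M₂ then 1 else 0)) := by
    intro i
    exact GaloisField.card p _ (by omega)
  have hFcard' : ∀ i, Nat.card (F i) = p ^ c ∨ Nat.card (F i) = p ^ (c + 1) := by
    intro i
    rw [hFcard]
    split_ifs
    · exact Or.inr rfl
    · exact Or.inl rfl
  have hFb : ∀ i, b ≤ Nat.card (F i) := by
    intro i
    rcases hFcard' i with h | h <;> rw [h]
    · exact hbc
    · exact hbc.trans (Nat.pow_le_pow_right hp1.le (Nat.le_succ c))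
  have hemb : ∀ i, Nonempty (Fin b ↪ F i) := by
    intro i
    apply Function.Embedding.nonempty_of_card_le
    rw [Fintype.card_fin, ← Nat.card_eq_fintype_card]
    exact hFb i
  have hcard : Fintype.card (Fin n) = Fintype.card (VB F ℓ) := by
    rw [Fintype.card_fin, Fintype.card_sum, Fintype.card_sigma, Fintype.card_sigma]
    simp only [ZMod.card]
    have hs := size_sum p c M M₂ hp1.le hM₂
    rw [hn, ← hs, Fin.sum_univ_zero, add_zero]
    refine Finset.sum_congr rfl fun i _ => ?_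
    rw [← Nat.card_eq_fintype_card, hFcard]
  let E : Fin n ≃ VB F ℓ := Fintype.equivOfCardEq hcard
  have hNE2 := ne_map15 (ev15 E) _ _ hne
  rw [Finset.map_univ_equiv] at hNE2
  have hNE3 : NE (univ : Finset (EV (VB F ℓ))) (fun S => ¬ Has 𝓕 (toG S)) := by
    have h1 : (fun S : Finset (EV (VB F ℓ)) => ¬ Has 𝓕 (toG S)) =
        (fun S => ¬ Has 𝓕 (toG (S.map (ev15 E).symm.toEmbedding))) := by
      funext S
      have h1 : toG (S.map (ev15 E).symm.toEmbedding) = (toG S).map E.symm.toEmbedding :=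
        toG_map15 E.symm S
      rw [h1]
      apply propext
      rw [not_iff_not]
      exact ⟨fun h => Has.mono' h ⟨(SimpleGraph.Iso.map E.symm (toG S)).toCopy⟩,
        fun h => Has.mono' h ⟨(SimpleGraph.Iso.map E.symm (toG S)).symm.toCopy⟩⟩
    rw [h1]
    exact hNE2
  have hpc : 0 < p ^ c - 1 := by
    have h1 : p ^ 1 ≤ p ^ c := Nat.pow_le_pow_right hp1.le hc
    rw [pow_one] at h1
    omega
  have hpc1 : p ^ c ≤ p ^ (c + 1) := Nat.pow_le_pow_right hp1.le (Nat.le_succ c)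
  let w : ∀ j, (ZMod (ℓ j))ˣ := fun j => 1
  have hcrit := crit_c (F := F) p 2 0 𝓕 H₁.1 H₁.2
    (fun H hH h => h0 ⟨H, hH⟩ (h.mono (Nat.one_le_pow _ _ (by norm_num))))
    (fun i => (hb H₁).trans (hFb i)) ((p ^ c - 1) * (p ^ (c + 1) - 1))
    (Nat.mul_pos hpc (by omega)) (fun j => j.elim0)
    (fun i => by
      rcases hFcard' i with h | h <;> rw [h]
      · exact Dvd.intro _ rfl
      · exact Dvd.intro_left _ rfl)
    (fun j => j.elim0) w (fun j => j.elim0) hNE3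
  have hcnt := count_small (F := F) 2 hb ⟨H₁.1, H₁.2⟩ hemb (fun j : Fin 0 => j.elim0) w
    (fun j => j.elim0)
  rw [(ZMod.intCast_zmod_eq_zero_iff_dvd _ 2).2 hcrit] at hcnt
  have hX : ∀ H : 𝓕, univ ∉ (xi : TY 𝓕).1 H := by
    intro H hH
    have h2 : univ ∈ ((J 2)^[0] (xi : TY 𝓕)).1 H := hH
    rw [xi_iter, pow_zero] at h2
    exact h0 H (h2.mono (Nat.one_le_pow _ _ (by norm_num)))
  have hnt : Nontrivial (AA 𝓕 2) := nontrivial_AA 2 _ hX
  have hch : CharP (AA 𝓕 2) 2 := charP_AA 2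
  rw [Fintype.card_fin, Fintype.card_fin, add_zero, hMk,
    period 2 (Or.inl rfl) m e H₁ h1 he (2 ^ (m + 1)) (Nat.one_le_pow _ _ (by norm_num)) j₀,
    value 2 (Or.inl rfl) m h0 H₁ h1] at hcnt
  have h7 : ((-1 : ZMod 2) ^ m) ≠ 0 := pow_ne_zero m (neg_ne_zero.2 one_ne_zero)
  exact h7 hcnt.symm

/-- the form for families -/
theorem crit_fam {n h e p c : ℕ} (hp : p.Prime) (hc : 1 ≤ c) (hpn : p ^ c ∣ n) (hh : h ≤ p ^ c)
    (hcop : Nat.Coprime (p - 1) (2 ^ 2 ^ e - 1)) (hbig : 2 * p ^ (c + 1) * 2 ^ 2 ^ e ≤ n)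
    (𝓕 : Pool.Agent.TH410.KV.Fam)
    (hb : ∀ H : 𝓕, H.1.1 ≤ h) (h0 : ∀ H : 𝓕, ¬ H.1.2.Colorable 1)
    (hcol : ∃ H : 𝓕, H.1.2.Colorable (2 ^ 2 ^ e))
    (hne : NE (univ : Finset (EV (Fin n))) (fun S => ¬ Has 𝓕 (toG S))) : False := by
  classical
  have hpF : Fact p.Prime := ⟨hp⟩
  have hex : ∃ i, ∃ H : 𝓕, H.1.2.Colorable (2 ^ i) := ⟨2 ^ e, hcol⟩
  have hi12 : Nat.find hex ≤ 2 ^ e := Nat.find_min' hex hcol
  have hi0 : Nat.find hex ≠ 0 := by
    intro h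
    obtain ⟨H, hH⟩ := Nat.find_spec hex
    rw [h, pow_zero] at hH
    exact h0 H hH
  obtain ⟨m, hm⟩ := Nat.exists_eq_succ_of_ne_zero hi0
  obtain ⟨H₁, h1⟩ := Nat.find_spec hex
  rw [hm] at h1
  have hmin : ∀ H : 𝓕, ¬ H.1.2.Colorable (2 ^ m) := by
    intro H hH
    exact Nat.find_min hex (by rw [hm]; exact Nat.lt_succ_self m) ⟨H, hH⟩
  have hme : m + 1 ≤ 2 ^ e := by omega
  obtain ⟨R, hR⟩ := hpn
  obtain ⟨T, hT⟩ : ∃ T : ℕ, T = 2 ^ 2 ^ e := ⟨_, rfl⟩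
  have hT2 : 2 ≤ T := by
    rw [hT]
    calc 2 = 2 ^ 1 := (pow_one 2).symm
      _ ≤ 2 ^ 2 ^ e := Nat.pow_le_pow_right (by norm_num) (Nat.one_le_two_pow)
  have hmT : 2 ^ (m + 1) ≤ T := by
    rw [hT]
    exact Nat.pow_le_pow_right (by norm_num) hme
  have hppos : 0 < p ^ c := pow_pos hp.pos c
  have hRT : 2 * p * T ≤ R := by
    rw [hR, ← hT] at hbig
    have h2 : p ^ c * (2 * p * T) ≤ p ^ c * R := by
      calc p ^ c * (2 * p * T) = 2 * p ^ (c + 1) * T := by ring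
        _ ≤ _ := hbig
    exact Nat.le_of_mul_le_mul_left h2 hppos
  obtain ⟨p', hp'⟩ : ∃ p' : ℕ, p = p' + 1 := ⟨p - 1, by have := hp.pos; omega⟩
  have hp'1 : 1 ≤ p' := by have := hp.one_lt; omega
  have hpp : p - 1 = p' := by omega
  obtain ⟨T', hT'⟩ : ∃ T' : ℕ, T = T' + 1 := ⟨T - 1, by omega⟩
  have hTT : T - 1 = T' := by omega
  rw [hpp, ← hT, hTT] at hcop
  have hRbig : 2 * (p' * T') + 2 ^ (m + 1) ≤ R := by
    have h3 : 2 * p * T = 2 * (p' * T') + 2 * p' + 2 * T := by rw [hp', hT']; ring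
    omega
  obtain ⟨M, j, M₂, hM1, hM2, hM3⟩ := choose_M p' T' (2 ^ (m + 1)) R hp'1 (by omega) hcop hRbig
  refine no_ne (p := p) (b := h) hb m hmin H₁ h1 e hme c hc hh M j M₂ hM3 ?_ n ?_ hne
  · rw [← hT, hTT, hM1]
  · rw [hR, hM2, hpp]

/-- the criterion -/
theorem crit {n h e p c : ℕ} (hp : p.Prime) (hc : 1 ≤ c) (hpn : p ^ c ∣ n) (hh : h ≤ p ^ c)
    (hcop : Nat.Coprime (p - 1) (2 ^ 2 ^ e - 1)) (hbig : 2 * p ^ (c + 1) * 2 ^ 2 ^ e ≤ n)
    (P : SimpleGraph (Fin n) → Prop)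
    (hmono : ∀ G H : SimpleGraph (Fin n), G ≤ H → P G → P H)
    (hiso : ∀ (σ : Fin n ≃ Fin n) (G : SimpleGraph (Fin n)), P G → P (G.map σ.toEmbedding))
    (hcol : ∃ G : SimpleGraph (Fin n), P G ∧ G.Colorable (2 ^ 2 ^ e))
    (h0 : ∃ G : SimpleGraph (Fin n), ¬ P G)
    (hsmall : ∀ G : SimpleGraph (Fin n), P G → ∃ H ≤ G, P H ∧ H.support.ncard ≤ h)
    (s : Finset (Sym2 (Fin n)) → SimpleGraph (Fin n) → Sym2 (Fin n))
    (hs : ∀ (Q : Finset (Sym2 (Fin n))) (G H : SimpleGraph (Fin n)),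
      (∀ e ∈ Q, (e ∈ G.edgeSet ↔ e ∈ H.edgeSet)) → s Q G = s Q H) :
    ∃ G H : SimpleGraph (Fin n),
      (∀ e ∈ (fun Q : Finset (Sym2 (Fin n)) => insert (s Q G) Q)^[n.choose 2 - 1]
            (∅ : Finset (Sym2 (Fin n))),
          (e ∈ G.edgeSet ↔ e ∈ H.edgeSet)) ∧ P G ∧ ¬ P H := by
  classical
  by_contra hbad
  have hn2 : 2 ≤ n := by
    have h2 : 1 ≤ p ^ (c + 1) := Nat.one_le_pow _ _ hp.pos
    have h3 : 1 ≤ 2 ^ 2 ^ e := Nat.one_le_two_pow
    calc 2 = 2 * 1 * 1 := by norm_num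
      _ ≤ 2 * p ^ (c + 1) * 2 ^ 2 ^ e := Nat.mul_le_mul (Nat.mul_le_mul_left _ h2) h3
      _ ≤ n := hbig
  have hNE := ne_of_strategy n hn2 P s hs hbad
  have hbot : ¬ P ⊥ := by
    intro h
    obtain ⟨G, hG⟩ := h0
    exact hG (hmono ⊥ G bot_le h)
  let 𝓕 : Pool.Agent.TH410.KV.Fam := {F | F.1 ≤ h ∧ ∃ f : Fin F.1 ↪ Fin n, P (F.2.map f)}
  have hex : ∀ G : SimpleGraph (Fin n), P G → ∃ F ∈ 𝓕, ∃ f : Fin F.1 ↪ Fin n,
      ∀ x y, F.2.Adj x y → G.Adj (f x) (f y) := by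
    intro G hG
    obtain ⟨H, hHG, hPH, hcard⟩ := hsmall G hG
    have hfin : Finite H.support := inferInstance
    let k := H.support.ncard
    have hk : Nat.card H.support = k := rfl
    let e : Fin k ≃ H.support := (Finite.equivFinOfCardEq hk).symm
    let f : Fin k ↪ Fin n := e.toEmbedding.trans (Function.Embedding.subtype _)
    have h2 : (H.comap f).map f = H := by
      ext x y
      rw [SimpleGraph.map_adj]
      constructor
      · rintro ⟨u, v, h, rfl, rfl⟩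
        exact h
      · intro h
        have hx : x ∈ H.support := ⟨y, h⟩
        have hy : y ∈ H.support := ⟨x, h.symm⟩
        have e1 : f (e.symm ⟨x, hx⟩) = x := by simp [f]
        have e2 : f (e.symm ⟨y, hy⟩) = y := by simp [f]
        refine ⟨e.symm ⟨x, hx⟩, e.symm ⟨y, hy⟩, ?_, e1, e2⟩
        rw [SimpleGraph.comap_adj, e1, e2]
        exact h
    refine ⟨⟨k, H.comap f⟩, ⟨hcard, f, ?_⟩, f, fun x y hxy => hHG hxy⟩
    rw [h2]
    exact hPH
  have hHas : ∀ G : SimpleGraph (Fin n), Has 𝓕 G ↔ P G := by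
    intro G
    constructor
    · rintro ⟨F, ⟨hF, f, hPf⟩, ⟨g⟩⟩
      have hg : Function.Injective g := g.injective
      let g' : Fin F.1 ↪ Fin n := ⟨g, hg⟩
      obtain ⟨σ, hσ⟩ : ∃ σ : Equiv.Perm (Fin n), ∀ x, σ (f x) = g' x := by
        obtain ⟨σ, hσ⟩ := (Equiv.Perm.isMultiplyPretransitive (Fin n) F.1).exists_smul_eq f g'
        refine ⟨σ, fun x => ?_⟩
        rw [← hσ]
        rfl
      have h2 : (F.2.map f).map σ.toEmbedding = F.2.map g' := by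
        rw [SimpleGraph.map_map]
        congr 1
        ext x
        exact congrArg Fin.val (hσ x)
      have h3 : P (F.2.map g') := by
        rw [← h2]
        exact hiso σ _ hPf
      refine hmono _ G ?_ h3
      rw [SimpleGraph.map_le_iff_le_comap]
      intro x y hxy
      exact g.toHom.map_adj hxy
    · intro hG
      obtain ⟨F, hF, f, hf⟩ := hex G hG
      refine ⟨F, hF, ⟨⟨⟨f, ?_⟩, f.injective⟩⟩⟩
      intro x y hxy
      exact hf x y hxy
  refine crit_fam hp hc hpn hh hcop hbig 𝓕 (fun H => H.2.1) ?_ ?_ ?_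
  · rintro ⟨F, hF, f, hPf⟩ ⟨C⟩
    apply hbot
    have h2 : F.2.map f = ⊥ := by
      ext x y
      rw [SimpleGraph.map_adj]
      constructor
      · rintro ⟨u, v, h, -, -⟩
        exact (C.valid h (Subsingleton.elim _ _)).elim
      · intro h
        exact h.elim
    rw [← h2]
    exact hPf
  · obtain ⟨G, hG, ⟨C⟩⟩ := hcol
    obtain ⟨F, hF, f, hf⟩ := hex G hG
    exact ⟨⟨F, hF⟩, ⟨SimpleGraph.Coloring.mk (fun x => C (f x))
      (fun {x y} hxy => C.valid (hf x y hxy))⟩⟩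
  · have h2 : (fun S : Finset (EV (Fin n)) => ¬ Has 𝓕 (toG S)) = fun S => ¬ P (toG S) := by
      funext S
      rw [hHas]
    rw [h2]
    exact hNE

end Run7.h972.Alm
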