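import Mathlib
import Pool.Agent.Cov.PNT

set_option autoImplicit false

/-!
# Primes of a residue class in dyadic windows, lower bound

MP_257582_lc: helper file for `AlmostAllOrders`.
-/

namespace Run7.h972.Alm

open Finset Filter Topology ArithmeticFunction
open Pool.Agent.Cov.PNT (pnt_residueClass)

theorem psi_theta :
    Tendsto (fun x : ℝ => (Chebyshev.psi x - Chebyshev.theta x) / x) atTop (𝓝 0) := by
  obtain ⟨C, hC⟩ := Chebyshev.psi_sub_theta_le_mul_sqrt
  have h2 : Tendsto (fun x : ℝ => C * (Real.sqrt x)⁻¹) atTop (𝓝 0) := by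
    have := (tendsto_inv_atTop_zero.comp Real.tendsto_sqrt_atTop).const_mul C
    simpa [Function.comp_def] using this
  refine squeeze_zero' ?_ ?_ h2
  · filter_upwards [eventually_gt_atTop 0] with x hx
    exact div_nonneg (sub_nonneg.mpr (Chebyshev.theta_le_psi x)) hx.le
  · filter_upwards [eventually_gt_atTop 0] with x hx
    rw [div_le_iff₀ hx]
    refine (hC x).trans (le_of_eq ?_)
    have hs : 0 < Real.sqrt x := Real.sqrt_pos.mpr hx
    have hx2 : Real.sqrt x * Real.sqrt x = x := Real.mul_self_sqrt hx.le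
    field_simp
    rw [sq, hx2]

/-- the primes of the class of `a` in the window above `2 ^ i` -/
def Wn (q a i : ℕ) : Finset ℕ :=
  (Ioc (2 ^ i) (2 ^ (i + 1))).filter (fun p => p.Prime ∧ (p : ZMod q) = (a : ZMod q))

/-- lower bound for the number of the primes of a residue class in dyadic windows -/
theorem low (q a : ℕ) (hq : 0 < q) (ha : a.Coprime q) :
    ∃ i₀ : ℕ, ∀ i : ℕ, i₀ ≤ i →
      (2 : ℝ) ^ i / (2 * q.totient * (i + 1)) ≤ ((Wn q a i).card : ℝ) := by
  have : NeZero q := ⟨hq.ne'⟩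
  set A : ZMod q := (a : ZMod q) with hA
  have hu : IsUnit A := (ZMod.isUnit_iff_coprime a q).2 ha
  set SS : ℕ → ℝ := fun n => ∑ k ∈ Finset.Icc 1 n, vonMangoldt.residueClass A k with hSS
  have htot : (0 : ℝ) < q.totient := by exact_mod_cast Nat.totient_pos.2 hq
  set c : ℝ := (q.totient : ℝ)⁻¹ with hc
  have hc0 : 0 < c := inv_pos.2 htot
  have hpow : Tendsto (fun i : ℕ => ((2 ^ i : ℕ) : ℝ)) atTop atTop := by
    have h := tendsto_pow_atTop_atTop_of_one_lt (r := (2 : ℝ)) (by norm_num)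
    refine h.congr fun i => ?_
    push_cast
    rfl
  have h1 : Tendsto (fun i : ℕ => SS (2 ^ i) / 2 ^ i) atTop (𝓝 c) := by
    have h := (pnt_residueClass hu).comp hpow
    refine h.congr fun i => ?_
    simp only [Function.comp, Nat.floor_natCast, hSS]
    push_cast
    rfl
  have h2 : Tendsto (fun i : ℕ => SS (2 ^ (i + 1)) / 2 ^ i) atTop (𝓝 (2 * c)) := by
    have h := (h1.comp (tendsto_add_atTop_nat 1)).const_mul 2
    refine h.congr fun i => ?_
    simp only [Function.comp]
    rw [pow_succ]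
    field_simp
    ring
  have h3 : Tendsto (fun i : ℕ => (Chebyshev.psi ((2 ^ (i + 1) : ℕ) : ℝ) -
      Chebyshev.theta ((2 ^ (i + 1) : ℕ) : ℝ)) / 2 ^ i) atTop (𝓝 0) := by
    have h := ((psi_theta.comp hpow).comp (tendsto_add_atTop_nat 1)).const_mul 2
    rw [mul_zero] at h
    refine h.congr fun i => ?_
    simp only [Function.comp]
    push_cast
    rw [pow_succ]
    field_simp
  have h4 := (h2.sub h1).sub h3
  have hlog1 : Real.log 2 < 1 := by
    have := Real.log_two_lt_d9
    linarith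
  have hlog0 : 0 < Real.log 2 := Real.log_pos (by norm_num)
  have h5 : Real.log 2 * c / 2 < 2 * c - c - 0 := by nlinarith
  obtain ⟨i₀, hi₀⟩ := eventually_atTop.1 (h4.eventually_const_lt h5)
  refine ⟨i₀, fun i hi => ?_⟩
  have h6 := hi₀ i hi
  have h2i : (0 : ℝ) < 2 ^ i := by positivity
  have hab : 2 ^ i ≤ 2 ^ (i + 1) := Nat.pow_le_pow_right (by norm_num) (Nat.le_succ i)
  have hsub : SS (2 ^ (i + 1)) - SS (2 ^ i) =
      ∑ k ∈ Finset.Ioc (2 ^ i) (2 ^ (i + 1)), vonMangoldt.residueClass A k := by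
    have e : Finset.Icc 1 (2 ^ (i + 1)) = Finset.Icc 1 (2 ^ i) ∪ Finset.Ioc (2 ^ i) (2 ^ (i + 1)) := by
      ext x
      simp only [mem_Icc, mem_union, mem_Ioc]
      omega
    have hd : Disjoint (Finset.Icc 1 (2 ^ i)) (Finset.Ioc (2 ^ i) (2 ^ (i + 1))) := by
      rw [Finset.disjoint_left]
      intro x hx hx'
      rw [mem_Icc] at hx
      rw [mem_Ioc] at hx'
      omega
    simp only [hSS]
    rw [e, Finset.sum_union hd]
    ring
  have h7 : SS (2 ^ (i + 1)) - SS (2 ^ i) - (Chebyshev.psi ((2 ^ (i + 1) : ℕ) : ℝ) -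
      Chebyshev.theta ((2 ^ (i + 1) : ℕ) : ℝ)) ≤ ∑ p ∈ Wn q a i, Real.log p := by
    rw [hsub, Chebyshev.psi_sub_theta_eq_sum_not_prime, Nat.floor_natCast]
    have e1 : ∑ r ∈ Finset.Ioc (2 ^ i) (2 ^ (i + 1)), vonMangoldt.residueClass A r
        = ∑ r ∈ (Finset.Ioc (2 ^ i) (2 ^ (i + 1))).filter (fun r => r.Prime),
            vonMangoldt.residueClass A r
        + ∑ r ∈ (Finset.Ioc (2 ^ i) (2 ^ (i + 1))).filter (fun r => ¬ r.Prime),
            vonMangoldt.residueClass A r :=
      (Finset.sum_filter_add_sum_filter_not _ _ _).symm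
    have e2 : ∑ r ∈ (Finset.Ioc (2 ^ i) (2 ^ (i + 1))).filter (fun r => ¬ r.Prime),
        vonMangoldt.residueClass A r
        ≤ ∑ r ∈ (Finset.Ioc 0 (2 ^ (i + 1))).filter (fun r => ¬ r.Prime), vonMangoldt r := by
      calc _ ≤ ∑ r ∈ (Finset.Ioc (2 ^ i) (2 ^ (i + 1))).filter (fun r => ¬ r.Prime), vonMangoldt r :=
            Finset.sum_le_sum fun r _ => vonMangoldt.residueClass_le _ _
        _ ≤ _ := by
          apply Finset.sum_le_sum_of_subset_of_nonneg
          · apply Finset.filter_subset_filter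
            exact Finset.Ioc_subset_Ioc (Nat.zero_le _) le_rfl
          · intro r _ _
            exact vonMangoldt_nonneg
    have e3 : ∑ r ∈ (Finset.Ioc (2 ^ i) (2 ^ (i + 1))).filter (fun r => r.Prime),
        vonMangoldt.residueClass A r = ∑ p ∈ Wn q a i, Real.log p := by
      have e4 : Wn q a i = ((Finset.Ioc (2 ^ i) (2 ^ (i + 1))).filter (fun r => r.Prime)).filter
          (fun r => ((r : ℕ) : ZMod q) = A) := by
        rw [Wn, Finset.filter_filter]
      rw [e4, Finset.sum_filter (p := fun r : ℕ => (r : ZMod q) = A)]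
      refine Finset.sum_congr rfl fun r hr => ?_
      rw [Finset.mem_filter] at hr
      simp only [vonMangoldt.residueClass, Set.indicator_apply, Set.mem_ofPred_eq]
      split_ifs with h
      · exact vonMangoldt_apply_prime hr.2
      · rfl
    linarith
  have h8 : ∑ p ∈ Wn q a i, Real.log p ≤ (Wn q a i).card * ((i + 1) * Real.log 2) := by
    rw [← nsmul_eq_mul]
    refine Finset.sum_le_card_nsmul _ _ _ fun r hr => ?_
    rw [Wn, Finset.mem_filter, Finset.mem_Ioc] at hr
    have e : ((i : ℝ) + 1) * Real.log 2 = Real.log ((2 : ℝ) ^ (i + 1)) := by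
      rw [Real.log_pow]
      push_cast
      rfl
    rw [e]
    apply Real.log_le_log
    · exact_mod_cast hr.2.1.pos
    · exact_mod_cast hr.1.2
  have h9 : Real.log 2 * c / 2 * 2 ^ i < (Wn q a i).card * ((i + 1) * Real.log 2) := by
    have e : (SS (2 ^ (i + 1)) / 2 ^ i - SS (2 ^ i) / 2 ^ i -
        (Chebyshev.psi ((2 ^ (i + 1) : ℕ) : ℝ) - Chebyshev.theta ((2 ^ (i + 1) : ℕ) : ℝ)) / 2 ^ i)
        = (SS (2 ^ (i + 1)) - SS (2 ^ i) -
        (Chebyshev.psi ((2 ^ (i + 1) : ℕ) : ℝ) - Chebyshev.theta ((2 ^ (i + 1) : ℕ) : ℝ))) /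
          2 ^ i := by ring
    rw [e, lt_div_iff₀ h2i] at h6
    linarith
  rw [div_le_iff₀ (by positivity)]
  have h10 : Real.log 2 * 2 ^ i < Real.log 2 * ((Wn q a i).card * (2 * q.totient * (i + 1))) := by
    have e1 : Real.log 2 * c / 2 * 2 ^ i * (2 * q.totient) = Real.log 2 * 2 ^ i := by
      rw [hc]
      field_simp
    have e2 : (Wn q a i).card * (((i : ℝ) + 1) * Real.log 2) * (2 * q.totient) =
        Real.log 2 * ((Wn q a i).card * (2 * q.totient * (i + 1))) := by ring
    rw [← e1, ← e2]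
    exact mul_lt_mul_of_pos_right h9 (by positivity)
  exact (lt_of_mul_lt_mul_left h10 hlog0.le).le

end Run7.h972.Alm
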