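import Mathlib

set_option autoImplicit false

/-!
# Integers without a prime divisor in a finite set of primes: the second moment

MP_257582_lc: helper file for `AlmostAllOrders`.
-/

namespace Run7.h972.Alm

open Finset

/-- the number of the multiples of `d` below `N` -/
theorem mult (N d : ℕ) (hd : 0 < d) :
    (N : ℝ) / d ≤ (((range N).filter (fun n => d ∣ n)).card : ℝ) ∧
      (((range N).filter (fun n => d ∣ n)).card : ℝ) ≤ (N : ℝ) / d + 1 := by
  have hd0 : (0 : ℝ) < d := by exact_mod_cast hd
  rcases Nat.eq_zero_or_pos N with h | h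
  · subst h
    simp
  · obtain ⟨N', rfl⟩ : ∃ N', N = N' + 1 := ⟨N - 1, by omega⟩
    have e1 : (range (N' + 1)).filter (fun n => d ∣ n) =
        insert 0 ((Ioc 0 N').filter (fun n => d ∣ n)) := by
      ext n
      simp only [mem_filter, mem_range, mem_insert, mem_Ioc]
      constructor
      · rintro ⟨h1, h2⟩
        rcases Nat.eq_zero_or_pos n with h3 | h3
        · exact Or.inl h3
        · exact Or.inr ⟨⟨h3, by omega⟩, h2⟩
      · rintro (h1 | ⟨⟨h1, h2⟩, h3⟩)
        · subst h1
          exact ⟨by omega, dvd_zero d⟩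
        · exact ⟨by omega, h3⟩
    have e2 : ((range (N' + 1)).filter (fun n => d ∣ n)).card = N' / d + 1 := by
      rw [e1, Finset.card_insert_of_notMem (by simp), Nat.Ioc_filter_dvd_card_eq_div]
    rw [e2]
    have h1 : N' / d * d + N' % d = N' := Nat.div_add_mod' N' d
    have h2 : N' % d < d := Nat.mod_lt _ hd
    constructor
    · rw [div_le_iff₀ hd0]
      have h3 : N' + 1 ≤ (N' / d + 1) * d := by
        rw [add_mul, one_mul]
        omega
      exact_mod_cast h3
    · push_cast
      have h3 : ((N' / d : ℕ) : ℝ) ≤ (N' : ℝ) / d := Nat.cast_div_le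
      have h4 : (N' : ℝ) / d ≤ (N' + 1) / d := by
        apply div_le_div_of_nonneg_right _ hd0.le
        linarith
      linarith

/-- the number of the integers below `N` without a divisor in `S` -/
theorem turan (N : ℕ) (S : Finset ℕ) (hS : ∀ p ∈ S, p.Prime) :
    (((range N).filter (fun n => ∀ p ∈ S, ¬ p ∣ n)).card : ℝ) * (∑ p ∈ S, 1 / (p : ℝ)) ^ 2 ≤
      N * (∑ p ∈ S, 1 / (p : ℝ)) + (S.card : ℝ) ^ 2 := by
  classical
  set m := ∑ p ∈ S, 1 / (p : ℝ) with hm
  have hm0 : 0 ≤ m := Finset.sum_nonneg fun p _ => by positivity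
  set A : ℕ → ℝ := fun n => ∑ p ∈ S, if p ∣ n then (1 : ℝ) else 0 with hA
  have h1 : (((range N).filter (fun n => ∀ p ∈ S, ¬ p ∣ n)).card : ℝ) * m ^ 2 ≤
      ∑ n ∈ range N, (A n - m) ^ 2 := by
    calc (((range N).filter (fun n => ∀ p ∈ S, ¬ p ∣ n)).card : ℝ) * m ^ 2
        = ∑ n ∈ (range N).filter (fun n => ∀ p ∈ S, ¬ p ∣ n), m ^ 2 := by
          rw [Finset.sum_const, nsmul_eq_mul]
      _ = ∑ n ∈ (range N).filter (fun n => ∀ p ∈ S, ¬ p ∣ n), (A n - m) ^ 2 := by
          refine Finset.sum_congr rfl fun n hn => ?_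
          rw [mem_filter] at hn
          have : A n = 0 := by
            simp only [hA]
            refine Finset.sum_eq_zero fun p hp => ?_
            rw [if_neg (hn.2 p hp)]
          rw [this]
          ring
      _ ≤ _ := by
          apply Finset.sum_le_sum_of_subset_of_nonneg (Finset.filter_subset _ _)
          intro n _ _
          positivity
  refine h1.trans ?_
  have hsum1 : (N : ℝ) * m ≤ ∑ n ∈ range N, A n := by
    simp only [hA]
    rw [Finset.sum_comm, hm, Finset.mul_sum]
    refine Finset.sum_le_sum fun p hp => ?_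
    rw [Finset.sum_ite, Finset.sum_const_zero, add_zero, Finset.sum_const, nsmul_eq_mul, mul_one]
    have h2 := (mult N p (hS p hp).pos).1
    calc (N : ℝ) * (1 / p) = N / p := by ring
      _ ≤ _ := h2
  have hsum2 : ∑ n ∈ range N, A n ^ 2 ≤ N * m ^ 2 + (S.card : ℝ) ^ 2 + N * m := by
    have e1 : ∀ n, A n ^ 2 = ∑ p ∈ S, ∑ q ∈ S, if p ∣ n ∧ q ∣ n then (1 : ℝ) else 0 := by
      intro n
      simp only [hA]
      rw [sq, Finset.sum_mul_sum]
      refine Finset.sum_congr rfl fun p _ => Finset.sum_congr rfl fun q _ => ?_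
      by_cases h2 : p ∣ n <;> by_cases h3 : q ∣ n <;> simp [h2, h3]
    have e2 : ∑ n ∈ range N, A n ^ 2 =
        ∑ p ∈ S, ∑ q ∈ S, (((range N).filter (fun n => p ∣ n ∧ q ∣ n)).card : ℝ) := by
      rw [Finset.sum_congr rfl fun n _ => e1 n, Finset.sum_comm]
      refine Finset.sum_congr rfl fun p _ => ?_
      rw [Finset.sum_comm]
      refine Finset.sum_congr rfl fun q _ => ?_
      rw [Finset.sum_ite, Finset.sum_const_zero, add_zero, Finset.sum_const, nsmul_eq_mul, mul_one]
    rw [e2]
    have h2 : ∀ p ∈ S, ∀ q ∈ S, (((range N).filter (fun n => p ∣ n ∧ q ∣ n)).card : ℝ) ≤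
        N * (1 / p * (1 / q)) + 1 + (if p = q then (N : ℝ) * (1 / p) else 0) := by
      intro p hp q hq
      have hp0 : (0 : ℝ) < p := by exact_mod_cast (hS p hp).pos
      have hq0 : (0 : ℝ) < q := by exact_mod_cast (hS q hq).pos
      have hN0 : (0 : ℝ) ≤ N := Nat.cast_nonneg N
      by_cases h : p = q
      · subst h
        rw [if_pos rfl]
        have e3 : (range N).filter (fun n => p ∣ n ∧ p ∣ n) = (range N).filter (fun n => p ∣ n) := by
          congr 1
          ext n
          simp
        rw [e3]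
        have h3 := (mult N p (hS p hp).pos).2
        have h4 : 0 ≤ (N : ℝ) * (1 / p * (1 / p)) := by positivity
        have h5 : (N : ℝ) * (1 / p) = N / p := by ring
        linarith
      · rw [if_neg h, add_zero]
        have hcop : Nat.Coprime p q := (Nat.coprime_primes (hS p hp) (hS q hq)).2 h
        have e3 : (range N).filter (fun n => p ∣ n ∧ q ∣ n) =
            (range N).filter (fun n => p * q ∣ n) := by
          apply Finset.filter_congr
          intro n _
          constructor
          · rintro ⟨h3, h4⟩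
            exact hcop.mul_dvd_of_dvd_of_dvd h3 h4
          · intro h3
            exact ⟨(dvd_mul_right p q).trans h3, (dvd_mul_left q p).trans h3⟩
        rw [e3]
        have h3 := (mult N (p * q) (Nat.mul_pos (hS p hp).pos (hS q hq).pos)).2
        have h4 : (N : ℝ) * (1 / p * (1 / q)) = N / ((p * q : ℕ) : ℝ) := by
          push_cast
          field_simp
        rw [h4]
        exact h3
    calc ∑ p ∈ S, ∑ q ∈ S, (((range N).filter (fun n => p ∣ n ∧ q ∣ n)).card : ℝ)
        ≤ ∑ p ∈ S, ∑ q ∈ S,
            ((N : ℝ) * (1 / p * (1 / q)) + 1 + (if p = q then (N : ℝ) * (1 / p) else 0)) :=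
          Finset.sum_le_sum fun p hp => Finset.sum_le_sum fun q hq => h2 p hp q hq
      _ = N * m ^ 2 + (S.card : ℝ) ^ 2 + N * m := by
          have e4 : ∑ p ∈ S, ∑ q ∈ S, (N : ℝ) * (1 / p * (1 / q)) = N * m ^ 2 := by
            rw [sq, hm, Finset.sum_mul_sum, Finset.mul_sum]
            refine Finset.sum_congr rfl fun p _ => ?_
            rw [Finset.mul_sum]
          have e5 : ∑ p ∈ S, ∑ q ∈ S, (if p = q then (N : ℝ) * (1 / p) else 0) = N * m := by
            rw [hm, Finset.mul_sum]
            refine Finset.sum_congr rfl fun p hp => ?_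
            rw [Finset.sum_ite_eq, if_pos hp]
          simp only [Finset.sum_add_distrib]
          rw [e4, e5]
          simp only [Finset.sum_const, nsmul_eq_mul, mul_one]
          ring
  have e6 : ∑ n ∈ range N, (A n - m) ^ 2 = ∑ n ∈ range N, A n ^ 2 - 2 * m * ∑ n ∈ range N, A n +
      N * m ^ 2 := by
    have e7 : ∀ n, (A n - m) ^ 2 = A n ^ 2 - 2 * m * A n + m ^ 2 := fun n => by ring
    rw [Finset.sum_congr rfl fun n _ => e7 n, Finset.sum_add_distrib, Finset.sum_sub_distrib,
      ← Finset.mul_sum, Finset.sum_const, card_range, nsmul_eq_mul]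
  rw [e6]
  have h3 : 2 * m * (N * m) ≤ 2 * m * ∑ n ∈ range N, A n :=
    mul_le_mul_of_nonneg_left hsum1 (by positivity)
  have h4 : 2 * m * (N * m) = 2 * (N * m ^ 2) := by ring
  linarith

end Run7.h972.Alm
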