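import Mathlib

set_option autoImplicit false

/-!
# The reciprocals of the prime divisors of `2 ^ (2 ^ e) - 1` which do not divide `2 ^ (2 ^ K) - 1`

MP_257582_lc: helper file for `AlmostAllOrders`.
-/

namespace Run7.h972.Alm

open Finset

/-- a finite set of at most `2 ^ k` positive integers -/
theorem sum_inv_le (T : Finset ℕ) (k : ℕ) (hT : ∀ j ∈ T, 0 < j) (hc : T.card ≤ 2 ^ k) :
    ∑ j ∈ T, 1 / (j : ℝ) ≤ k + 2 := by
  rw [← Finset.sum_filter_add_sum_filter_not T (fun j => j ≤ 2 ^ k)]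
  have h1 : ∑ j ∈ T.filter (fun j => j ≤ 2 ^ k), 1 / (j : ℝ) ≤ 1 + k := by
    calc ∑ j ∈ T.filter (fun j => j ≤ 2 ^ k), 1 / (j : ℝ)
        ≤ ∑ j ∈ (Icc 1 (2 ^ k) : Finset ℕ), 1 / (j : ℝ) := by
          apply Finset.sum_le_sum_of_subset_of_nonneg
          · intro j hj
            rw [mem_filter] at hj
            rw [mem_Icc]
            exact ⟨hT j hj.1, hj.2⟩
          · intro j _ _
            positivity
      _ = ((harmonic (2 ^ k) : ℚ) : ℝ) := by
          rw [harmonic_eq_sum_Icc]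
          push_cast
          exact Finset.sum_congr rfl fun j _ => by rw [one_div]
      _ ≤ 1 + Real.log ((2 ^ k : ℕ) : ℝ) := harmonic_le_one_add_log _
      _ ≤ 1 + k := by
          push_cast
          rw [Real.log_pow]
          have h2 : Real.log 2 < 1 := by
            have := Real.log_two_lt_d9
            linarith
          have h3 : (0 : ℝ) ≤ k := Nat.cast_nonneg k
          nlinarith
  have h2 : ∑ j ∈ T.filter (fun j => ¬ j ≤ 2 ^ k), 1 / (j : ℝ) ≤ 1 := by
    have h3 : ∀ j ∈ T.filter (fun j => ¬ j ≤ 2 ^ k), 1 / (j : ℝ) ≤ 1 / 2 ^ k := by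
      intro j hj
      rw [mem_filter, not_le] at hj
      apply one_div_le_one_div_of_le (by positivity)
      exact_mod_cast hj.2.le
    refine (Finset.sum_le_card_nsmul _ _ _ h3).trans ?_
    rw [nsmul_eq_mul]
    have h4 : ((T.filter (fun j => ¬ j ≤ 2 ^ k)).card : ℝ) ≤ 2 ^ k := by
      exact_mod_cast (Finset.card_filter_le _ _).trans hc
    calc _ ≤ (2 : ℝ) ^ k * (1 / 2 ^ k) := mul_le_mul_of_nonneg_right h4 (by positivity)
      _ = 1 := by field_simp
  linarith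

/-- the primes modulo which `2` has order `2 ^ k` -/
theorem layer (S : Finset ℕ) (k : ℕ) (hS : ∀ r ∈ S, r.Prime ∧ orderOf (2 : ZMod r) = 2 ^ k) :
    ∑ r ∈ S, 1 / ((r : ℝ) - 1) ≤ 3 * (3 / 4) ^ k := by
  classical
  have hdvd : ∀ r ∈ S, 2 ^ k ∣ r - 1 := by
    intro r hr
    obtain ⟨h1, h2⟩ := hS r hr
    have hF : Fact r.Prime := ⟨h1⟩
    rw [← h2]
    apply ZMod.orderOf_dvd_card_sub_one
    intro h
    rw [h] at h2
    have h3 : orderOf (0 : ZMod r) = 0 := by
      rw [orderOf_eq_zero_iff']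
      intro n hn
      rw [zero_pow hn.ne']
      exact zero_ne_one
    rw [h3] at h2
    exact absurd h2.symm (by positivity)
  have hrd : ∀ r ∈ S, r ∣ 2 ^ 2 ^ k - 1 := by
    intro r hr
    obtain ⟨h1, h2⟩ := hS r hr
    have h3 : (2 : ZMod r) ^ (2 ^ k) = 1 := by
      rw [← h2]
      exact pow_orderOf_eq_one _
    rw [← ZMod.natCast_eq_zero_iff]
    rw [Nat.cast_sub (Nat.one_le_two_pow)]
    push_cast
    rw [h3, sub_self]
  have hcard : S.card ≤ 2 ^ k := by
    have h1 : ∏ r ∈ S, r ∣ 2 ^ 2 ^ k - 1 :=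
      Finset.prod_primes_dvd _ (fun r hr => (hS r hr).1.prime) hrd
    have h2 : 0 < 2 ^ 2 ^ k - 1 := by
      have : 2 ^ 1 ≤ 2 ^ 2 ^ k := Nat.pow_le_pow_right (by norm_num) Nat.one_le_two_pow
      omega
    have h3 : 2 ^ S.card ≤ ∏ r ∈ S, r := by
      rw [← Finset.prod_const]
      exact Finset.prod_le_prod' fun r hr => (hS r hr).1.two_le
    have h4 := (h3.trans (Nat.le_of_dvd h2 h1)).trans (Nat.sub_le _ _)
    exact (Nat.pow_le_pow_iff_right (by norm_num)).1 h4
  have hinj : Set.InjOn (fun r => (r - 1) / 2 ^ k) (S : Set ℕ) := by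
    intro r hr r' hr' h
    have h1 := Nat.div_mul_cancel (hdvd r hr)
    have h2 := Nat.div_mul_cancel (hdvd r' hr')
    simp only at h
    have h3 : r - 1 = r' - 1 := by rw [← h1, ← h2, h]
    have := (hS r hr).1.two_le
    have := (hS r' hr').1.two_le
    omega
  have h1 := sum_inv_le (S.image (fun r => (r - 1) / 2 ^ k)) k (by
    intro j hj
    rw [mem_image] at hj
    obtain ⟨r, hr, rfl⟩ := hj
    apply Nat.div_pos _ (by positivity)
    apply Nat.le_of_dvd _ (hdvd r hr)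
    have := (hS r hr).1.two_le
    omega) (Finset.card_image_le.trans hcard)
  rw [Finset.sum_image hinj] at h1
  have h2 : ∑ r ∈ S, 1 / ((r : ℝ) - 1) = (1 / 2 ^ k) * ∑ r ∈ S, 1 / (((r - 1) / 2 ^ k : ℕ) : ℝ) := by
    rw [Finset.mul_sum]
    refine Finset.sum_congr rfl fun r hr => ?_
    obtain ⟨j, hj⟩ := hdvd r hr
    have h3 : (r - 1) / 2 ^ k = j := by
      rw [hj]
      exact Nat.mul_div_cancel_left _ (by positivity)
    have h4 : (r : ℝ) - 1 = 2 ^ k * j := by
      have h5 := (hS r hr).1.two_le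
      have h6 : r = 2 ^ k * j + 1 := by omega
      rw [h6]
      push_cast
      ring
    rw [h3, h4]
    rw [one_div_mul_one_div]
  rw [h2]
  have h3 : ((k : ℝ) + 2) * (1 / 2 ^ k) ≤ 3 * (3 / 4) ^ k := by
    have h4 : (k : ℝ) + 2 ≤ 3 * (3 / 2) ^ k := by
      induction k with
      | zero => norm_num
      | succ k ih => ?_
      have h5 : ∀ k : ℕ, (k : ℝ) + 2 ≤ 3 * (3 / 2) ^ k := by
        intro k
        induction k with
        | zero => norm_num
        | succ k ih =>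
          push_cast
          rw [pow_succ]
          have h6 : (1 : ℝ) ≤ (3 / 2) ^ k := one_le_pow₀ (by norm_num)
          linarith
      exact h5 (k + 1)
    have h5 : (3 / 4 : ℝ) ^ k = (3 / 2) ^ k * (1 / 2 ^ k) := by
      rw [one_div, ← inv_pow, ← mul_pow]
      norm_num
    rw [h5, ← mul_assoc]
    exact mul_le_mul_of_nonneg_right h4 (by positivity)
  calc (1 / 2 ^ k) * ∑ r ∈ S, 1 / (((r - 1) / 2 ^ k : ℕ) : ℝ)
      ≤ (1 / 2 ^ k) * (k + 2) := mul_le_mul_of_nonneg_left h1 (by positivity)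
    _ = ((k : ℝ) + 2) * (1 / 2 ^ k) := by ring
    _ ≤ _ := h3

/-- the whole tail -/
theorem tail (K e : ℕ) (S : Finset ℕ)
    (hS : ∀ r ∈ S, r.Prime ∧ r ∣ 2 ^ 2 ^ e - 1 ∧ ¬ r ∣ 2 ^ 2 ^ K - 1) :
    ∑ r ∈ S, 1 / ((r : ℝ) - 1) ≤ 12 * (3 / 4) ^ K := by
  classical
  have hord : ∀ r ∈ S, ∃ k, K < k ∧ k ≤ e ∧ orderOf (2 : ZMod r) = 2 ^ k := by
    intro r hr
    obtain ⟨h1, h2, h3⟩ := hS r hr
    have h4 : (2 : ZMod r) ^ (2 ^ e) = 1 := by
      rw [← ZMod.natCast_eq_zero_iff, Nat.cast_sub Nat.one_le_two_pow] at h2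
      push_cast at h2
      exact sub_eq_zero.1 h2
    have h5 := orderOf_dvd_of_pow_eq_one h4
    obtain ⟨k, hk, h6⟩ := (Nat.dvd_prime_pow Nat.prime_two).1 h5
    refine ⟨k, ?_, hk, h6⟩
    by_contra hcon
    push Not at hcon
    apply h3
    have h7 : (2 : ZMod r) ^ (2 ^ K) = 1 := by
      rw [← orderOf_dvd_iff_pow_eq_one, h6]
      exact pow_dvd_pow 2 hcon
    rw [← ZMod.natCast_eq_zero_iff, Nat.cast_sub Nat.one_le_two_pow]
    push_cast
    rw [h7, sub_self]
  choose! f hf1 hf2 hf3 using hord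
  have hmap : ∀ r ∈ S, f r ∈ Ico (K + 1) (e + 1) := by
    intro r hr
    rw [mem_Ico]
    have := hf1 r hr
    have := hf2 r hr
    omega
  rw [← Finset.sum_fiberwise_of_maps_to hmap]
  calc ∑ k ∈ Ico (K + 1) (e + 1), ∑ r ∈ S with f r = k, 1 / ((r : ℝ) - 1)
      ≤ ∑ k ∈ Ico (K + 1) (e + 1), 3 * (3 / 4 : ℝ) ^ k := by
        refine Finset.sum_le_sum fun k _ => layer _ k ?_
        intro r hr
        rw [mem_filter] at hr
        exact ⟨(hS r hr.1).1, by rw [hf3 r hr.1, hr.2]⟩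
    _ = 3 * ∑ k ∈ Ico (K + 1) (e + 1), (3 / 4 : ℝ) ^ k := by rw [Finset.mul_sum]
    _ ≤ 3 * ((3 / 4) ^ K * 4) := by
        apply mul_le_mul_of_nonneg_left _ (by norm_num)
        rcases Nat.lt_or_ge e K with h | h
        · rw [Finset.Ico_eq_empty (by omega), Finset.sum_empty]
          positivity
        · rw [geom_sum_Ico (by norm_num) (by omega : K + 1 ≤ e + 1)]
          have h1 : (0 : ℝ) ≤ (3 / 4) ^ (e + 1) := by positivity
          have h2 : (3 / 4 : ℝ) ^ (K + 1) = (3 / 4) ^ K * (3 / 4) := pow_succ _ _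
          have h3 : (0 : ℝ) ≤ (3 / 4) ^ K := by positivity
          rw [div_le_iff_of_neg (by norm_num)]
          rw [h2]
          linarith
    _ = 12 * (3 / 4) ^ K := by ring

end Run7.h972.Alm
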