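import Mathlib
import Pool.Agent.TH915.UC.BT
import Pool.Agent.Run7.h972.Alm.Low

set_option autoImplicit false

/-!
# Primes of residue classes in dyadic windows, upper bounds

MP_257582_lc: helper file for `AlmostAllOrders`.
-/

namespace Run7.h972.Alm

open Finset

/-- integers of a residue class in an interval -/
theorem up_large (A B r : ℕ) (hr : 0 < r) :
    ((Ioc A (A + B)).filter (fun m => r ∣ m - 1)).card ≤ B / r + 2 := by
  have h1 : ((Ioc A (A + B)).filter (fun m => r ∣ m - 1)).card ≤
      (Icc (A / r) ((A + B) / r)).card := by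
    apply Finset.card_le_card_of_injOn (fun m => (m - 1) / r)
    · intro m hm
      have hm' : m ∈ (Ioc A (A + B)).filter (fun m => r ∣ m - 1) := hm
      rw [mem_filter, mem_Ioc] at hm'
      show (m - 1) / r ∈ (Icc (A / r) ((A + B) / r) : Finset ℕ)
      rw [mem_Icc]
      exact ⟨Nat.div_le_div_right (by omega), Nat.div_le_div_right (by omega)⟩
    · intro m hm m' hm' h
      have hm1 : m ∈ (Ioc A (A + B)).filter (fun m => r ∣ m - 1) := hm
      have hm2 : m' ∈ (Ioc A (A + B)).filter (fun m => r ∣ m - 1) := hm'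
      rw [mem_filter, mem_Ioc] at hm1 hm2
      have e1 := Nat.div_mul_cancel hm1.2
      have e2 := Nat.div_mul_cancel hm2.2
      simp only at h
      have h3 : m - 1 = m' - 1 := by rw [← e1, ← e2, h]
      omega
  refine h1.trans ?_
  rw [Nat.card_Icc]
  have h2 : (A + B) / r ≤ A / r + B / r + 1 := by
    rw [Nat.add_div hr]
    split_ifs <;> omega
  generalize (A + B) / r = x at h2 ⊢
  generalize A / r = y at h2 ⊢
  generalize B / r = z at h2 ⊢
  omega

/-- Brun-Titchmarsh for two conditions -/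
theorem up_small (M r i : ℕ) (hM : 0 < M) (hr : r.Prime) (hrM : ¬ r ∣ M) (hi : 1 ≤ i)
    (hMr : M * r ≤ 2 ^ (i / 2)) :
    (((Wn M 2 i).filter (fun p => r ∣ p - 1)).card : ℝ) ≤
      300 * 2 ^ i / (M.totient * (i + 1)) * (1 / ((r : ℝ) - 1)) := by
  set D := (Wn M 2 i).filter (fun p => r ∣ p - 1) with hD
  have htot : (0 : ℝ) < M.totient := by exact_mod_cast Nat.totient_pos.2 hM
  have hr1 : (0 : ℝ) < (r : ℝ) - 1 := by
    have : (1 : ℝ) < r := by exact_mod_cast hr.one_lt
    linarith
  rcases Finset.eq_empty_or_nonempty D with he | hne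
  · rw [he, Finset.card_empty]
    push_cast
    positivity
  have hcop : Nat.Coprime M r := ((Nat.Prime.coprime_iff_not_dvd hr).2 hrM).symm
  set q := M * r with hq
  have hq0 : 0 < q := Nat.mul_pos hM hr.pos
  set N := 2 ^ i / q + 1 with hN
  have hmem : ∀ p ∈ D, 2 ^ i < p ∧ p ≤ 2 ^ (i + 1) ∧ p.Prime ∧ (p : ZMod M) = 2 ∧ r ∣ p - 1 := by
    intro p hp
    rw [hD, mem_filter, Wn, mem_filter, mem_Ioc] at hp
    refine ⟨hp.1.1.1, hp.1.1.2, hp.1.2.1, ?_, hp.2⟩
    have := hp.1.2.2
    push_cast at this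
    exact this
  obtain ⟨p0, hp0, hmin⟩ := Finset.exists_min_image D id hne
  simp only [id] at hmin
  have hmod : ∀ p ∈ D, q ∣ p - p0 := by
    intro p hp
    obtain ⟨h1, h2, h3, h4, h5⟩ := hmem p hp
    obtain ⟨g1, g2, g3, g4, g5⟩ := hmem p0 hp0
    have hle := hmin p hp
    rw [hq]
    apply hcop.mul_dvd_of_dvd_of_dvd
    · rw [← ZMod.natCast_eq_zero_iff, Nat.cast_sub hle, h4, g4, sub_self]
    · have : p - p0 = (p - 1) - (p0 - 1) := by
        have := g3.one_lt
        omega
      rw [this]
      exact Nat.dvd_sub h5 g5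
  have hcard : D.card ≤ ((Finset.range N).filter (fun k => (p0 + k * q).Prime)).card := by
    apply Finset.card_le_card_of_injOn (fun p => (p - p0) / q)
    · intro p hp
      have hp' : p ∈ D := hp
      obtain ⟨h1, h2, h3, h4, h5⟩ := hmem p hp'
      obtain ⟨g1, g2, g3, g4, g5⟩ := hmem p0 hp0
      have hle := hmin p hp'
      show (p - p0) / q ∈ (Finset.range N).filter (fun k => (p0 + k * q).Prime)
      rw [mem_filter, mem_range]
      constructor
      · rw [hN]
        apply Nat.lt_succ_of_le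
        apply Nat.div_le_div_right
        rw [pow_succ] at h2
        omega
      · rw [Nat.div_mul_cancel (hmod p hp')]
        have : p0 + (p - p0) = p := by omega
        rw [this]
        exact h3
    · intro p hp p' hp' h
      have e1 := Nat.div_mul_cancel (hmod p hp)
      have e2 := Nat.div_mul_cancel (hmod p' hp')
      have h1 := hmin p hp
      have h2 := hmin p' hp'
      simp only at h
      have h3 : p - p0 = p' - p0 := by rw [← e1, ← e2, h]
      omega
  have hqi : q ≤ 2 ^ i := hMr.trans (Nat.pow_le_pow_right (by norm_num) (Nat.div_le_self _ _))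
  have hN2 : 2 ≤ N := by
    have : 1 ≤ 2 ^ i / q := (Nat.one_le_div_iff hq0).2 hqi
    omega
  have hbt := Pool.Agent.TH915.UC.bt_gen p0 q N hq0 hN2
  have h1 : (D.card : ℝ) ≤ 22 * ((q : ℝ) / q.totient) * N / Real.log N :=
    le_trans (by exact_mod_cast hcard) hbt
  refine h1.trans ?_
  have hqr : (0 : ℝ) < q := by exact_mod_cast hq0
  have hNle : (N : ℝ) ≤ 2 * 2 ^ i / q := by
    have h2 : (N : ℝ) ≤ 2 ^ i / q + 1 := by
      rw [hN]
      push_cast
      have h3 : ((2 ^ i / q : ℕ) : ℝ) ≤ ((2 ^ i : ℕ) : ℝ) / q := Nat.cast_div_le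
      push_cast at h3
      linarith
    have h3 : (1 : ℝ) ≤ 2 ^ i / q := by
      rw [le_div_iff₀ hqr, one_mul]
      exact_mod_cast hqi
    have h4 : 2 * 2 ^ i / (q : ℝ) = 2 ^ i / q + 2 ^ i / q := by ring
    linarith
  have hNlog : (i : ℝ) / 2 * Real.log 2 ≤ Real.log N := by
    have h2 : (2 : ℝ) ^ (i - i / 2) ≤ N := by
      have h3 : 2 ^ (i - i / 2) ≤ N := by
        have h4 : 2 ^ (i - i / 2) ≤ 2 ^ i / q := by
          rw [Nat.le_div_iff_mul_le hq0]
          calc 2 ^ (i - i / 2) * q ≤ 2 ^ (i - i / 2) * 2 ^ (i / 2) := Nat.mul_le_mul_left _ hMr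
            _ = 2 ^ i := by
              rw [← pow_add]
              congr 1
              omega
        omega
      exact_mod_cast h3
    have h3 : Real.log ((2 : ℝ) ^ (i - i / 2)) ≤ Real.log N := Real.log_le_log (by positivity) h2
    rw [Real.log_pow] at h3
    refine le_trans ?_ h3
    apply mul_le_mul_of_nonneg_right _ (Real.log_nonneg (by norm_num))
    rw [div_le_iff₀ (by norm_num)]
    have : i ≤ (i - i / 2) * 2 := by omega
    exact_mod_cast this
  have hlog2 : (0.69 : ℝ) < Real.log 2 := by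
    have := Real.log_two_gt_d9
    linarith
  have hi0 : (1 : ℝ) ≤ i := by exact_mod_cast hi
  have hlogN : 0.17 * ((i : ℝ) + 1) ≤ Real.log N := by
    refine le_trans ?_ hNlog
    nlinarith
  have htq : (q.totient : ℝ) = M.totient * ((r : ℝ) - 1) := by
    rw [hq, Nat.totient_mul hcop, Nat.totient_prime hr]
    push_cast [Nat.cast_sub hr.one_lt.le]
    ring
  have hpos : (0 : ℝ) < M.totient * ((r : ℝ) - 1) := mul_pos htot hr1
  calc 22 * ((q : ℝ) / q.totient) * N / Real.log N
      ≤ 22 * ((q : ℝ) / q.totient) * (2 * 2 ^ i / q) / (0.17 * ((i : ℝ) + 1)) := by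
        apply div_le_div₀
        · rw [htq]; positivity
        · apply mul_le_mul_of_nonneg_left hNle
          rw [htq]; positivity
        · positivity
        · exact hlogN
    _ = (44 / 0.17) * (2 ^ i / (M.totient * (i + 1)) * (1 / ((r : ℝ) - 1))) := by
        rw [htq]
        field_simp
        norm_num
    _ ≤ 300 * (2 ^ i / (M.totient * (i + 1)) * (1 / ((r : ℝ) - 1))) := by
        apply mul_le_mul_of_nonneg_right (by norm_num)
        positivity
    _ = _ := by ring

end Run7.h972.Alm
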