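import Mathlib
import Pool.Agent.Run7.h972.Alm.Up
import Pool.Agent.Run7.h972.Alm.Tail

set_option autoImplicit false

/-!
# Primes `p` with `p - 1` prime to `2 ^ (2 ^ e) - 1` in dyadic windows

MP_257582_lc: helper file for `AlmostAllOrders`.
-/

namespace Run7.h972.Alm

open Finset Filter Topology

/-- the good primes of a window -/
def GG (e i : ℕ) : Finset ℕ :=
  (Ioc (2 ^ i) (2 ^ (i + 1))).filter (fun p => p.Prime ∧ Nat.Coprime (p - 1) (2 ^ 2 ^ e - 1))

theorem large_i (C : ℝ) : ∃ i₂ : ℕ, ∀ i : ℕ, i₂ ≤ i → C * ((i : ℝ) + 1) ≤ 2 ^ (i / 4) := by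
  have h1 : Tendsto (fun n : ℕ => (n : ℝ) ^ 1 / 2 ^ n) atTop (𝓝 0) :=
    tendsto_pow_const_div_const_pow_of_one_lt 1 (by norm_num)
  have hC : (0 : ℝ) < 1 / (8 * (|C| + 1)) := by positivity
  obtain ⟨t₀, ht₀⟩ := eventually_atTop.1 (h1.eventually_lt_const hC)
  refine ⟨4 * (t₀ + 1), fun i hi => ?_⟩
  have ht : t₀ + 1 ≤ i / 4 := by omega
  have h2 := ht₀ (i / 4) (by omega)
  set t := i / 4 with htdef
  rw [pow_one, div_lt_div_iff₀ (by positivity) (by positivity), one_mul] at h2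
  have h3 : (i : ℝ) + 1 ≤ 4 * t + 4 := by
    have : i + 1 ≤ 4 * t + 4 := by omega
    exact_mod_cast this
  have h4 : (1 : ℝ) ≤ t := by
    have : 1 ≤ t := by omega
    exact_mod_cast this
  calc C * ((i : ℝ) + 1) ≤ |C| * ((i : ℝ) + 1) :=
        mul_le_mul_of_nonneg_right (le_abs_self C) (by positivity)
    _ ≤ (|C| + 1) * (8 * t) := by
        apply mul_le_mul (by linarith) (by linarith) (by positivity) (by positivity)
    _ = t * (8 * (|C| + 1)) := by ring
    _ ≤ 2 ^ t := h2.le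

/-- many good primes in all windows -/
theorem window : ∃ c : ℝ, 0 < c ∧ ∃ i₁ : ℕ, ∀ i : ℕ, i₁ ≤ i → ∀ e : ℕ, 2 ^ e ≤ 2 * i →
    c * (2 ^ i / ((i : ℝ) + 1)) ≤ ((GG e i).card : ℝ) := by
  classical
  obtain ⟨K, hK⟩ : ∃ K : ℕ, 300 * (12 * (3 / 4 : ℝ) ^ K) < 1 / 8 := by
    obtain ⟨K, hK⟩ := exists_pow_lt_of_lt_one (show (0 : ℝ) < 1 / 28800 by norm_num)
      (show (3 / 4 : ℝ) < 1 by norm_num)
    exact ⟨K, by linarith⟩
  set M := 2 ^ 2 ^ K - 1 with hM
  have hM0 : 0 < M := by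
    have : 2 ^ 1 ≤ 2 ^ 2 ^ K := Nat.pow_le_pow_right (by norm_num) Nat.one_le_two_pow
    omega
  have hMo : Nat.Coprime 2 M := by
    rw [Nat.coprime_two_left, hM]
    apply Nat.Even.sub_odd Nat.one_le_two_pow _ odd_one
    exact (Nat.even_pow.2 ⟨even_two, by positivity⟩)
  obtain ⟨i₀, hi₀⟩ := low M 2 hM0 hMo
  have htot : (0 : ℝ) < M.totient := by exact_mod_cast Nat.totient_pos.2 hM0
  obtain ⟨i₂, hi₂⟩ := large_i (512 * M.totient)
  obtain ⟨i₃, hi₃⟩ := large_i M
  refine ⟨1 / (4 * M.totient), by positivity, max (max i₀ i₂) (max i₃ 24), fun i hi e he => ?_⟩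
  have hii0 : i₀ ≤ i := le_trans (le_max_left _ _) ((le_max_left _ _).trans hi)
  have hii2 : i₂ ≤ i := le_trans (le_max_right _ _) ((le_max_left _ _).trans hi)
  have hii3 : i₃ ≤ i := le_trans (le_max_left _ _) ((le_max_right _ _).trans hi)
  have hi24 : 24 ≤ i := le_trans (le_max_right _ _) ((le_max_right _ _).trans hi)
  have hlow := hi₀ i hii0
  have hbig := hi₂ i hii2
  have hMi : M ≤ 2 ^ (i / 4) := by
    have h1 := hi₃ i hii3
    have h2 : (M : ℝ) ≤ 2 ^ (i / 4) := by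
      refine le_trans ?_ h1
      have h3 : (0 : ℝ) ≤ M := Nat.cast_nonneg _
      have h4 : (0 : ℝ) ≤ i := Nat.cast_nonneg _
      nlinarith
    exact_mod_cast h2
  have hNe : 0 < 2 ^ 2 ^ e - 1 := by
    have : 2 ^ 1 ≤ 2 ^ 2 ^ e := Nat.pow_le_pow_right (by norm_num) Nat.one_le_two_pow
    omega
  set S := (2 ^ 2 ^ e - 1).primeFactors.filter (fun r => ¬ r ∣ M) with hS
  set D : ℕ → Finset ℕ := fun r => (Wn M 2 i).filter (fun p => r ∣ p - 1) with hD
  have hsub : Wn M 2 i ⊆ GG e i ∪ S.biUnion D := by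
    intro p hp
    have hp' := hp
    rw [Wn, mem_filter] at hp'
    rw [mem_union]
    by_cases hg : Nat.Coprime (p - 1) (2 ^ 2 ^ e - 1)
    · left
      rw [GG, mem_filter]
      exact ⟨hp'.1, hp'.2.1, hg⟩
    · right
      obtain ⟨r, hr, h1, h2⟩ := Nat.Prime.not_coprime_iff_dvd.1 hg
      rw [mem_biUnion]
      refine ⟨r, ?_, ?_⟩
      · rw [hS, mem_filter, Nat.mem_primeFactors]
        refine ⟨⟨hr, h2, hNe.ne'⟩, fun h3 => ?_⟩
        have h4 : (p : ZMod r) = 2 := by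
          have h5 : ((p : ZMod M) : ZMod M) = ((2 : ℕ) : ZMod M) := hp'.2.2
          have h6 : p ≡ 2 [MOD M] := (ZMod.natCast_eq_natCast_iff _ _ _).1 h5
          have h7 := (ZMod.natCast_eq_natCast_iff _ _ _).2 (h6.of_dvd h3)
          push_cast at h7
          exact h7
        have h5 : ((p - 1 : ℕ) : ZMod r) = 0 := (ZMod.natCast_eq_zero_iff _ _).2 h1
        rw [Nat.cast_sub hp'.2.1.one_lt.le, h4] at h5
        push_cast at h5
        have hF : Fact r.Prime := ⟨hr⟩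
        have h6 : (2 : ZMod r) - 1 = 1 := by ring
        rw [h6] at h5
        exact one_ne_zero h5
      · rw [hD, mem_filter]
        exact ⟨hp, h1⟩
  have hcard1 : ((Wn M 2 i).card : ℝ) ≤ (GG e i).card + ∑ r ∈ S, ((D r).card : ℝ) := by
    have h1 := (Finset.card_le_card hsub).trans ((Finset.card_union_le _ _).trans
      (Nat.add_le_add_left Finset.card_biUnion_le _))
    exact_mod_cast h1
  set t := i / 4 with ht
  have ht6 : 6 ≤ t := by omega
  rw [← Finset.sum_filter_add_sum_filter_not S (fun r => r < 2 ^ t)] at hcard1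
  have hSmem : ∀ r ∈ S, r.Prime ∧ r ∣ 2 ^ 2 ^ e - 1 ∧ ¬ r ∣ M := by
    intro r hr
    rw [hS, mem_filter, Nat.mem_primeFactors] at hr
    exact ⟨hr.1.1, hr.1.2.1, hr.2⟩
  have hsmall : ∑ r ∈ S.filter (fun r => r < 2 ^ t), ((D r).card : ℝ) ≤
      1 / 8 * (2 ^ i / (M.totient * (i + 1))) := by
    calc ∑ r ∈ S.filter (fun r => r < 2 ^ t), ((D r).card : ℝ)
        ≤ ∑ r ∈ S.filter (fun r => r < 2 ^ t),
            300 * 2 ^ i / (M.totient * ((i : ℝ) + 1)) * (1 / ((r : ℝ) - 1)) := by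
          refine Finset.sum_le_sum fun r hr => ?_
          rw [mem_filter] at hr
          obtain ⟨h1, h2, h3⟩ := hSmem r hr.1
          refine up_small M r i hM0 h1 h3 (by omega) ?_
          calc M * r ≤ 2 ^ t * 2 ^ t := Nat.mul_le_mul hMi hr.2.le
            _ = 2 ^ (t + t) := by rw [← pow_add]
            _ ≤ 2 ^ (i / 2) := Nat.pow_le_pow_right (by norm_num) (by omega)
      _ = 300 * 2 ^ i / (M.totient * ((i : ℝ) + 1)) *
            ∑ r ∈ S.filter (fun r => r < 2 ^ t), (1 / ((r : ℝ) - 1)) := by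
          rw [Finset.mul_sum]
      _ ≤ 300 * 2 ^ i / (M.totient * ((i : ℝ) + 1)) * (12 * (3 / 4) ^ K) := by
          apply mul_le_mul_of_nonneg_left _ (by positivity)
          apply tail K e
          intro r hr
          rw [mem_filter] at hr
          exact hSmem r hr.1
      _ = (300 * (12 * (3 / 4) ^ K)) * (2 ^ i / (M.totient * ((i : ℝ) + 1))) := by ring
      _ ≤ 1 / 8 * (2 ^ i / (M.totient * (i + 1))) := by
          apply mul_le_mul_of_nonneg_right hK.le (by positivity)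
  set T := S.filter (fun r => ¬ r < 2 ^ t) with hT
  have hTcard : T.card ≤ 16 := by
    have h1 : ∏ r ∈ T, r ∣ 2 ^ 2 ^ e - 1 := by
      refine Finset.prod_primes_dvd _ (fun r hr => ?_) (fun r hr => ?_)
      · rw [hT, mem_filter] at hr
        exact (hSmem r hr.1).1.prime
      · rw [hT, mem_filter] at hr
        exact (hSmem r hr.1).2.1
    have h2 : (2 ^ t) ^ T.card ≤ ∏ r ∈ T, r := by
      rw [← Finset.prod_const]
      refine Finset.prod_le_prod' fun r hr => ?_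
      rw [hT, mem_filter, not_lt] at hr
      exact hr.2
    have h3 := (h2.trans (Nat.le_of_dvd hNe h1)).trans (Nat.sub_le _ _)
    rw [← pow_mul] at h3
    have h4 := (Nat.pow_le_pow_iff_right (by norm_num)).1 h3
    by_contra hcon
    push Not at hcon
    have h5 : t * 17 ≤ t * T.card := Nat.mul_le_mul_left _ hcon
    omega
  have hlarge : ∑ r ∈ T, ((D r).card : ℝ) ≤ 1 / 8 * (2 ^ i / (M.totient * (i + 1))) := by
    have h1 : ∀ r ∈ T, ((D r).card : ℝ) ≤ 4 * (2 ^ i / 2 ^ t) := by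
      intro r hr
      rw [hT, mem_filter, not_lt] at hr
      have hr0 : 0 < r := (hSmem r hr.1).1.pos
      have h2 : (D r).card ≤ 2 ^ i / r + 2 := by
        refine le_trans (Finset.card_le_card ?_) (up_large (2 ^ i) (2 ^ i) r hr0)
        intro p hp
        rw [hD, mem_filter, Wn, mem_filter, mem_Ioc] at hp
        rw [mem_filter, mem_Ioc]
        refine ⟨⟨hp.1.1.1, ?_⟩, hp.2⟩
        have := hp.1.1.2
        rw [pow_succ] at this
        omega
      have h3 : ((2 ^ i / r : ℕ) : ℝ) ≤ 2 ^ i / 2 ^ t := by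
        have h4 : 2 ^ i / r ≤ 2 ^ i / 2 ^ t := Nat.div_le_div_left hr.2 (by positivity)
        have h5 : ((2 ^ i / 2 ^ t : ℕ) : ℝ) ≤ ((2 ^ i : ℕ) : ℝ) / ((2 ^ t : ℕ) : ℝ) :=
          Nat.cast_div_le
        push_cast at h5
        exact le_trans (by exact_mod_cast h4) h5
      have h4 : (1 : ℝ) ≤ 2 ^ i / 2 ^ t := by
        rw [le_div_iff₀ (by positivity), one_mul]
        exact pow_le_pow_right₀ (by norm_num) (by omega)
      have h5 : ((D r).card : ℝ) ≤ ((2 ^ i / r : ℕ) : ℝ) + 2 := by exact_mod_cast h2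
      linarith
    have h2 : ∑ r ∈ T, ((D r).card : ℝ) ≤ 16 * (4 * (2 ^ i / 2 ^ t)) := by
      refine (Finset.sum_le_card_nsmul _ _ _ h1).trans ?_
      rw [nsmul_eq_mul]
      apply mul_le_mul_of_nonneg_right _ (by positivity)
      exact_mod_cast hTcard
    refine h2.trans ?_
    have h2t : (0 : ℝ) < 2 ^ t := by positivity
    have hA : (0 : ℝ) < M.totient * ((i : ℝ) + 1) := by positivity
    have e1 : 1 / 8 * ((2 : ℝ) ^ i / (M.totient * (i + 1))) - 16 * (4 * (2 ^ i / 2 ^ t)) =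
        2 ^ i / (8 * (M.totient * ((i : ℝ) + 1)) * 2 ^ t) *
          (2 ^ t - 512 * M.totient * ((i : ℝ) + 1)) := by
      field_simp
      ring
    have e2 : 0 ≤ (2 : ℝ) ^ i / (8 * (M.totient * ((i : ℝ) + 1)) * 2 ^ t) *
          (2 ^ t - 512 * M.totient * ((i : ℝ) + 1)) :=
      mul_nonneg (by positivity) (by linarith)
    linarith
  have e3 : 1 / (4 * (M.totient : ℝ)) * (2 ^ i / ((i : ℝ) + 1)) =
      1 / 4 * (2 ^ i / (M.totient * (i + 1))) := by
    field_simp
  have e4 : (2 : ℝ) ^ i / (2 * M.totient * (i + 1)) = 1 / 2 * (2 ^ i / (M.totient * (i + 1))) := by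
    field_simp
  rw [e4] at hlow
  rw [e3]
  linarith

end Run7.h972.Alm
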