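import Mathlib
import Pool.Agent.Run7.h972.Alm.Crit
import Pool.Agent.Run7.h972.Alm.Win
import Pool.Agent.Run7.h972.Alm.Turan

set_option autoImplicit false

/-!
# Almost all numbers of vertices

MP_257582_lc: helper file for `AlmostAllOrders`.
-/

namespace Run7.h972.Alm

open Finset

/-- a graph with at most `k` non-isolated vertices is `k`-colourable -/
theorem colorable_of_support {V : Type} [Finite V] (H : SimpleGraph V) (k : ℕ) (hk0 : 0 < k)
    (hk : H.support.ncard ≤ k) : H.Colorable k := by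
  classical
  let e : H.support ≃ Fin H.support.ncard := Finite.equivFinOfCardEq rfl
  refine ⟨SimpleGraph.Coloring.mk
    (fun x => if hx : x ∈ H.support then Fin.castLE hk (e ⟨x, hx⟩) else ⟨0, hk0⟩) ?_⟩
  intro x y hxy
  have hx : x ∈ H.support := ⟨y, hxy⟩
  have hy : y ∈ H.support := ⟨x, hxy.symm⟩
  rw [dif_pos hx, dif_pos hy]
  intro h
  have h2 := e.injective (Fin.castLE_injective hk h)
  exact hxy.ne (congrArg Subtype.val h2)

/-- the mass of the good primes of a range of windows -/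
theorem mass (c : ℝ) (hc : 0 < c) (i₁ : ℕ)
    (hw : ∀ i : ℕ, i₁ ≤ i → ∀ e : ℕ, 2 ^ e ≤ 2 * i →
      c * (2 ^ i / ((i : ℝ) + 1)) ≤ ((GG e i).card : ℝ)) (e a : ℕ) (ha : i₁ ≤ a)
    (he : 2 ^ e ≤ 2 * a) (b : ℕ) (hab : a ≤ b) :
    c / 2 * (Real.log ((b : ℝ) + 1) - Real.log ((a : ℝ) + 1)) ≤
      ∑ p ∈ (Ico a b).biUnion (GG e), 1 / (p : ℝ) := by
  classical
  have hdisj : ((Ico a b : Finset ℕ) : Set ℕ).PairwiseDisjoint (GG e) := by
    intro i _ j _ hij
    rw [Function.onFun, Finset.disjoint_left]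
    intro p hp hp'
    rw [GG, mem_filter, mem_Ioc] at hp hp'
    rcases lt_or_gt_of_ne hij with h | h
    · have h1 : 2 ^ (i + 1) ≤ 2 ^ j := Nat.pow_le_pow_right (by norm_num) h
      omega
    · have h1 : 2 ^ (j + 1) ≤ 2 ^ i := Nat.pow_le_pow_right (by norm_num) h
      omega
  rw [Finset.sum_biUnion hdisj]
  induction b, hab using Nat.le_induction with
  | base => simp
  | succ b hb ih =>
    rw [Finset.sum_Ico_succ_top hb]
    have ih' := ih (by
      intro i hi j hj hij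
      have h1 : i ∈ Ico a (b + 1) := by
        have : i ∈ Ico a b := hi
        rw [mem_Ico] at this ⊢
        omega
      have h2 : j ∈ Ico a (b + 1) := by
        have : j ∈ Ico a b := hj
        rw [mem_Ico] at this ⊢
        omega
      exact hdisj h1 h2 hij)
    have h1 : c * (2 ^ b / ((b : ℝ) + 1)) ≤ ((GG e b).card : ℝ) := hw b (ha.trans hb) e (by omega)
    have h2 : ((GG e b).card : ℝ) * (1 / 2 ^ (b + 1)) ≤ ∑ p ∈ GG e b, 1 / (p : ℝ) := by
      rw [← nsmul_eq_mul]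
      refine Finset.card_nsmul_le_sum _ _ _ fun p hp => ?_
      rw [GG, mem_filter, mem_Ioc] at hp
      apply one_div_le_one_div_of_le
      · exact_mod_cast hp.2.1.pos
      · exact_mod_cast hp.1.2
    have h3 : c / 2 * (1 / ((b : ℝ) + 1)) ≤ ((GG e b).card : ℝ) * (1 / 2 ^ (b + 1)) := by
      calc c / 2 * (1 / ((b : ℝ) + 1)) = c * (2 ^ b / ((b : ℝ) + 1)) * (1 / 2 ^ (b + 1)) := by
            rw [pow_succ]
            field_simp
        _ ≤ _ := mul_le_mul_of_nonneg_right h1 (by positivity)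
    have h4 : Real.log ((b : ℝ) + 1 + 1) - Real.log ((b : ℝ) + 1) ≤ 1 / ((b : ℝ) + 1) := by
      have hb0 : (0 : ℝ) < (b : ℝ) + 1 := by positivity
      rw [← Real.log_div (by positivity) (by positivity)]
      have h5 := Real.log_le_sub_one_of_pos (show (0 : ℝ) < ((b : ℝ) + 1 + 1) / (b + 1) by positivity)
      refine h5.trans (le_of_eq ?_)
      field_simp
      ring
    have h5 : c / 2 * (Real.log ((b : ℝ) + 1 + 1) - Real.log ((b : ℝ) + 1)) ≤
        c / 2 * (1 / ((b : ℝ) + 1)) := mul_le_mul_of_nonneg_left h4 (by positivity)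
    push_cast
    have h6 : c / 2 * (Real.log ((b : ℝ) + 1 + 1) - Real.log ((a : ℝ) + 1)) =
        c / 2 * (Real.log ((b : ℝ) + 1) - Real.log ((a : ℝ) + 1)) +
        c / 2 * (Real.log ((b : ℝ) + 1 + 1) - Real.log ((b : ℝ) + 1)) := by ring
    rw [h6]
    linarith

/-- the strategy form of evasiveness -/
def EvS {n : ℕ} (P : SimpleGraph (Fin n) → Prop) : Prop :=
  ∀ s : Finset (Sym2 (Fin n)) → SimpleGraph (Fin n) → Sym2 (Fin n),
    (∀ (Q : Finset (Sym2 (Fin n))) (G H : SimpleGraph (Fin n)),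
        (∀ e ∈ Q, (e ∈ G.edgeSet ↔ e ∈ H.edgeSet)) → s Q G = s Q H) →
    ∃ G H : SimpleGraph (Fin n),
      (∀ e ∈ (fun Q : Finset (Sym2 (Fin n)) => insert (s Q G) Q)^[n.choose 2 - 1]
            (∅ : Finset (Sym2 (Fin n))),
          (e ∈ G.edgeSet ↔ e ∈ H.edgeSet)) ∧ P G ∧ ¬ P H

/-- all monotone properties given by subgraphs with at most `x` non-isolated vertices are evasive -/
def Sm (n : ℕ) (x : ℝ) : Prop :=
  ∀ P : SimpleGraph (Fin n) → Prop,
    (∀ G H : SimpleGraph (Fin n), G ≤ H → P G → P H) →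
    (∀ (σ : Fin n ≃ Fin n) (G : SimpleGraph (Fin n)), P G → P (G.map σ.toEmbedding)) →
    (∃ G : SimpleGraph (Fin n), P G) → (∃ G : SimpleGraph (Fin n), ¬ P G) →
    (∀ G : SimpleGraph (Fin n), P G → ∃ H ≤ G, P H ∧ (H.support.ncard : ℝ) ≤ x) → EvS P

/-- the criterion for one prime divisor -/
theorem sm_of_prime {n a b e p i : ℕ} (he : a ≤ 2 ^ e) (he2 : 2 ^ e ≤ 2 * a)
    (hai : a ≤ i) (hib : i < b) (hp : p ∈ GG e i) (hpn : p ∣ n) (hn : 2 ^ (1 + 2 * b + 2 * a) ≤ n)
    (x : ℝ) (hx : x ≤ 2 ^ a) : Sm n x := by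
  intro P hmono hiso h1 h0 hsmall s hs
  rw [GG, mem_filter, mem_Ioc] at hp
  obtain ⟨⟨hp1, hp2⟩, hp3, hp4⟩ := hp
  have hsm : ∀ G : SimpleGraph (Fin n), P G → ∃ H ≤ G, P H ∧ H.support.ncard ≤ 2 ^ a := by
    intro G hG
    obtain ⟨H, hH1, hH2, hH3⟩ := hsmall G hG
    refine ⟨H, hH1, hH2, ?_⟩
    exact_mod_cast hH3.trans hx
  refine crit (h := 2 ^ a) (e := e) (c := 1) hp3 le_rfl (by rw [pow_one]; exact hpn) ?_ hp4 ?_ P hmono
    hiso ?_ h0 hsm s hs
  · rw [pow_one]
    exact (Nat.pow_le_pow_right (by norm_num) hai).trans hp1.le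
  · have h2 : p ≤ 2 ^ b := hp2.trans (Nat.pow_le_pow_right (by norm_num) hib)
    have h3 : 2 ^ 2 ^ e ≤ 2 ^ (2 * a) := Nat.pow_le_pow_right (by norm_num) he2
    calc 2 * p ^ (1 + 1) * 2 ^ 2 ^ e ≤ 2 * (2 ^ b) ^ (1 + 1) * 2 ^ (2 * a) :=
          Nat.mul_le_mul (Nat.mul_le_mul_left _ (Nat.pow_le_pow_left h2 _)) h3
      _ = 2 ^ (1 + 2 * b + 2 * a) := by ring
      _ ≤ n := hn
  · obtain ⟨G, hG⟩ := h1
    obtain ⟨H, hH1, hH2, hH3⟩ := hsm G hG
    refine ⟨H, hH2, colorable_of_support H _ (by positivity) (hH3.trans ?_)⟩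
    exact Nat.pow_le_pow_right (by norm_num) he

open Classical in
/-- the density theorem -/
theorem main (ε : ℝ) (hε : 0 < ε) : ∃ δ : ℝ, 0 < δ ∧ ∃ N₀ : ℕ, ∀ N : ℕ, N₀ ≤ N →
    (((range N).filter (fun n => ¬ Sm n ((n : ℝ) ^ δ))).card : ℝ) ≤ ε * N := by
  obtain ⟨c, hc, i₁, hw⟩ := window
  obtain ⟨η, hη⟩ : ∃ η : ℝ, η = min ε 1 := ⟨_, rfl⟩
  have hη0 : 0 < η := by rw [hη]; exact lt_min hε one_pos
  have hη1 : η ≤ 1 := by rw [hη]; exact min_le_right _ _
  have hηε : η ≤ ε := by rw [hη]; exact min_le_left _ _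
  obtain ⟨D, hD64, hD⟩ : ∃ D : ℕ, 64 ≤ D ∧ 16 * Real.exp (8 / (c * η)) ≤ D := by
    obtain ⟨D, hD⟩ := exists_nat_ge (16 * Real.exp (8 / (c * η)))
    refine ⟨max 64 D, le_max_left _ _, hD.trans ?_⟩
    exact_mod_cast le_max_right 64 D
  obtain ⟨s, hs⟩ : ∃ s : ℕ, 4 / η ≤ 2 ^ s := by
    obtain ⟨s, hs⟩ := pow_unbounded_of_one_lt (4 / η) (show (1 : ℝ) < 2 by norm_num)
    exact ⟨s, hs.le⟩
  have hD0 : (0 : ℝ) < D := by
    have : 0 < D := by omega
    exact_mod_cast this
  refine ⟨1 / D, by positivity, 2 ^ (D * (i₁ + 1) + 4 * s + 64), fun N hN => ?_⟩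
  have hN0 : N ≠ 0 := by
    have : 0 < 2 ^ (D * (i₁ + 1) + 4 * s + 64) := by positivity
    omega
  set L := Nat.log 2 N with hL
  have hL1 : D * (i₁ + 1) + 4 * s + 64 ≤ L := Nat.le_log_of_pow_le (by norm_num) hN
  have hNL : N < 2 ^ (L + 1) := Nat.lt_pow_succ_log_self (by norm_num) N
  have hLN : 2 ^ L ≤ N := Nat.pow_log_le_self 2 hN0
  set a := (L + 1) / D + 1 with ha
  set b := L / 4 with hb
  set e := Nat.log 2 a + 1 with he
  have ha0 : a ≠ 0 := Nat.succ_ne_zero _
  have he1 : a ≤ 2 ^ e := (Nat.lt_pow_succ_log_self (by norm_num) a).le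
  have he2 : 2 ^ e ≤ 2 * a := by
    have h1 := Nat.pow_log_le_self 2 ha0
    rw [he, pow_succ]
    omega
  have hi1a : i₁ ≤ a := by
    have h1 : i₁ + 1 ≤ (L + 1) / D := by
      rw [Nat.le_div_iff_mul_le (by omega), mul_comm (i₁ + 1) D]
      have h2 : D * (i₁ + 1) ≤ L := le_trans (by omega) hL1
      exact h2.trans (Nat.le_succ L)
    omega
  have hdiv : (L + 1) / D ≤ (L + 1) / 64 := Nat.div_le_div_left hD64 (by norm_num)
  have haL : 2 * a + 1 ≤ L / 4 := by omega
  have hab : a ≤ b := by omega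
  set PP := (Ico a b).biUnion (GG e) with hPP
  set X := 2 ^ (1 + 2 * b + 2 * a) with hX
  have hmass := mass c hc i₁ hw e a hi1a he2 b hab
  set m := ∑ p ∈ PP, 1 / (p : ℝ) with hm
  -- the mass is large
  have hLr : (0 : ℝ) < L := by
    have : 0 < L := by omega
    exact_mod_cast this
  have hm4 : 4 / η ≤ m := by
    refine le_trans ?_ hmass
    have h1 : ((a : ℝ) + 1) * (D / 16) ≤ (b : ℝ) + 1 := by
      have h2 : (a : ℝ) + 1 ≤ (L + 1) / D + 2 := by
        rw [ha]
        push_cast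
        have h3 : (((L + 1) / D : ℕ) : ℝ) ≤ ((L + 1 : ℕ) : ℝ) / D := Nat.cast_div_le
        push_cast at h3
        linarith
      have h3 : (L : ℝ) / 4 ≤ (b : ℝ) + 1 := by
        rw [div_le_iff₀ (by norm_num)]
        have : L ≤ (b + 1) * 4 := by omega
        exact_mod_cast this
      refine le_trans ?_ h3
      calc ((a : ℝ) + 1) * (D / 16) ≤ (((L : ℝ) + 1) / D + 2) * (D / 16) :=
            mul_le_mul_of_nonneg_right h2 (by positivity)
        _ = ((L : ℝ) + 1 + 2 * D) / 16 := by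
            field_simp
        _ ≤ L / 4 := by
            have h4 : D ≤ L := by
              have : D * 1 ≤ D * (i₁ + 1) := Nat.mul_le_mul_left _ (by omega)
              omega
            have h5 : (D : ℝ) ≤ L := by exact_mod_cast h4
            have h6 : (64 : ℝ) ≤ L := by
              have : 64 ≤ L := by omega
              exact_mod_cast this
            linarith
    have ha1 : (0 : ℝ) < (a : ℝ) + 1 := by positivity
    have h2 : Real.log ((a : ℝ) + 1) + Real.log (D / 16) ≤ Real.log ((b : ℝ) + 1) := by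
      rw [← Real.log_mul (by positivity) (by positivity)]
      exact Real.log_le_log (by positivity) h1
    have h3 : 8 / (c * η) ≤ Real.log (D / 16) := by
      rw [Real.le_log_iff_exp_le (by positivity)]
      rw [le_div_iff₀ (by norm_num)]
      linarith
    have h4 : 4 / η = c / 2 * (8 / (c * η)) := by
      field_simp
      norm_num
    rw [h4]
    apply mul_le_mul_of_nonneg_left _ (by positivity)
    linarith
  have hm1 : 1 ≤ m := by
    refine le_trans ?_ hm4
    rw [le_div_iff₀ hη0]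
    linarith
  -- the primes
  have hPp : ∀ p ∈ PP, p.Prime := by
    intro p hp
    rw [hPP, mem_biUnion] at hp
    obtain ⟨i, _, hp⟩ := hp
    rw [GG, mem_filter] at hp
    exact hp.2.1
  have hPcard : PP.card ≤ 2 ^ b := by
    calc PP.card ≤ (Icc 1 (2 ^ b)).card := by
          apply Finset.card_le_card
          intro p hp
          rw [hPP, mem_biUnion] at hp
          obtain ⟨i, hi, hp⟩ := hp
          rw [GG, mem_filter, mem_Ioc] at hp
          rw [mem_Ico] at hi
          rw [mem_Icc]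
          have : 2 ^ (i + 1) ≤ 2 ^ b := Nat.pow_le_pow_right (by norm_num) (by omega)
          omega
      _ = 2 ^ b := by rw [Nat.card_Icc, Nat.add_sub_cancel]
  -- the covering of the bad integers
  have hcov : (range N).filter (fun n => ¬ Sm n ((n : ℝ) ^ (1 / (D : ℝ)))) ⊆
      range X ∪ (range N).filter (fun n => ∀ p ∈ PP, ¬ p ∣ n) := by
    intro n hn
    rw [mem_filter, mem_range] at hn
    rw [mem_union, mem_range, mem_filter, mem_range]
    by_contra hcon
    push Not at hcon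
    obtain ⟨h1, h2⟩ := hcon
    obtain ⟨p, hp, hpn⟩ := h2 hn.1
    rw [hPP, mem_biUnion] at hp
    obtain ⟨i, hi, hp⟩ := hp
    rw [mem_Ico] at hi
    refine hn.2 (sm_of_prime he1 he2 hi.1 hi.2 hp hpn h1 _ ?_)
    have h3 : (n : ℝ) ≤ 2 ^ (L + 1) := by exact_mod_cast (hn.1.trans hNL).le
    have h4 : ((L : ℝ) + 1) / D ≤ a := by
      rw [div_le_iff₀ hD0]
      have h5 : L + 1 ≤ a * D := by
        have h6 := Nat.div_add_mod (L + 1) D
        have h7 : (L + 1) % D < D := Nat.mod_lt _ (by omega)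
        have h8 : a * D = D * ((L + 1) / D) + D := by rw [ha]; ring
        omega
      exact_mod_cast h5
    calc (n : ℝ) ^ (1 / (D : ℝ)) ≤ ((2 : ℝ) ^ (L + 1)) ^ (1 / (D : ℝ)) :=
          Real.rpow_le_rpow (Nat.cast_nonneg n) h3 (by positivity)
      _ = (2 : ℝ) ^ (((L : ℝ) + 1) / D) := by
          rw [← Real.rpow_natCast, ← Real.rpow_mul (by norm_num)]
          congr 1
          push_cast
          ring
      _ ≤ (2 : ℝ) ^ (a : ℝ) := Real.rpow_le_rpow_of_exponent_le (by norm_num) h4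
      _ = 2 ^ a := Real.rpow_natCast 2 a
  have hcard := (Finset.card_le_card hcov).trans (Finset.card_union_le _ _)
  rw [card_range] at hcard
  have hcard' : (((range N).filter (fun n => ¬ Sm n ((n : ℝ) ^ (1 / (D : ℝ))))).card : ℝ) ≤
      X + (((range N).filter (fun n => ∀ p ∈ PP, ¬ p ∣ n)).card : ℝ) := by exact_mod_cast hcard
  refine hcard'.trans ?_
  have htur := turan N PP hPp
  rw [← hm] at htur
  set Z := (((range N).filter (fun n => ∀ p ∈ PP, ¬ p ∣ n)).card : ℝ) with hZ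
  have hNr : (0 : ℝ) ≤ N := Nat.cast_nonneg N
  have hXN : (X : ℝ) ≤ η / 4 * N := by
    have h1 : X * 2 ^ s ≤ N := by
      calc X * 2 ^ s = 2 ^ (1 + 2 * b + 2 * a + s) := by rw [hX, ← pow_add]
        _ ≤ 2 ^ L := Nat.pow_le_pow_right (by norm_num) (by omega)
        _ ≤ N := hLN
    have h2 : (X : ℝ) * 2 ^ s ≤ N := by exact_mod_cast h1
    have h3 : (X : ℝ) * (4 / η) ≤ N := by
      refine le_trans ?_ h2
      exact mul_le_mul_of_nonneg_left hs (Nat.cast_nonneg X)
    have h4 : (X : ℝ) * (4 / η) * (η / 4) = X := by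
      field_simp
    calc (X : ℝ) = (X : ℝ) * (4 / η) * (η / 4) := h4.symm
      _ ≤ N * (η / 4) := mul_le_mul_of_nonneg_right h3 (by positivity)
      _ = η / 4 * N := mul_comm _ _
  have hP2 : (PP.card : ℝ) ^ 2 ≤ X := by
    have h1 : PP.card ^ 2 ≤ X := by
      calc PP.card ^ 2 ≤ (2 ^ b) ^ 2 := Nat.pow_le_pow_left hPcard 2
        _ = 2 ^ (b * 2) := by rw [← pow_mul]
        _ ≤ X := Nat.pow_le_pow_right (by norm_num) (by omega)
    exact_mod_cast h1
  have hm0 : 0 < m := by linarith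
  have hZle : Z ≤ N / m + X := by
    have h1 : Z * m ^ 2 ≤ (N / m + X) * m ^ 2 := by
      refine htur.trans ?_
      have h2 : (N / m + X) * m ^ 2 = N * m + X * m ^ 2 := by
        field_simp
      rw [h2]
      have h3 : (X : ℝ) * 1 ≤ X * m ^ 2 := by
        apply mul_le_mul_of_nonneg_left _ (Nat.cast_nonneg X)
        nlinarith
      linarith
    exact le_of_mul_le_mul_right h1 (by positivity)
  have hNm : N / m ≤ η / 4 * N := by
    rw [div_le_iff₀ hm0]
    have h1 : 1 ≤ η / 4 * m := by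
      have h2 : η / 4 * (4 / η) ≤ η / 4 * m := mul_le_mul_of_nonneg_left hm4 (by positivity)
      have h3 : η / 4 * (4 / η) = 1 := by field_simp
      linarith
    calc (N : ℝ) = N * 1 := (mul_one _).symm
      _ ≤ N * (η / 4 * m) := mul_le_mul_of_nonneg_left h1 hNr
      _ = η / 4 * N * m := by ring
  have hfin : X + Z ≤ η * N := by
    have : η * N = η / 4 * N + η / 4 * N + η / 4 * N + η / 4 * N := by ring
    have h0 : 0 ≤ η / 4 * N := by positivity
    linarith
  exact hfin.trans (mul_le_mul_of_nonneg_right hηε hNr)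

end Run7.h972.Alm
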